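import Mathlib
import Pool.Agent.H399R2.Run

set_option autoImplicit false

open Pool.Agent.H399R2

namespace Pool.Agent.Results.MP_3f8e47_nt.LongLife

/-- The 3-periodic sequence `2, 6, 0, 2, 6, 0, …` (indexed from 1). -/
def b (n : ℕ) : ℕ := if n % 3 = 1 then 2 else if n % 3 = 2 then 6 else 0

lemma b_add_three (n : ℕ) : b (n + 3) = b n := by simp [b]

lemma b_add (n j : ℕ) : b (n + 3 * j) = b n := by simp [b]

lemma b_congr {n k : ℕ} (h : n % 3 = k % 3) : b n = b k := by simp [b, h]

lemma b_even (n : ℕ) : b n % 2 = 0 := by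
  unfold b; split_ifs <;> rfl

/-- a window of length `M` meets every residue class modulo `M` -/
lemma window (M : ℕ) (hM : 0 < M) (r e : ℕ) (he : M ≤ e) :
    ∃ k, e - M ≤ k ∧ k < e ∧ (k + 1) ≡ r [MOD M] := by
  set d := (e + (M - r % M)) % M with hd
  have hdM : d < M := Nat.mod_lt _ hM
  refine ⟨e - 1 - d, by omega, by omega, ?_⟩
  have h1 : e - 1 - d + 1 = e - d := by omega
  rw [h1]
  have hr : r % M < M := Nat.mod_lt _ hM
  have h2 : (e - d) + d ≡ r + d [MOD M] := by
    have h3 : (e - d) + d = e := by omega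
    rw [h3]
    have h4 : r + d ≡ r + (e + (M - r % M)) [MOD M] := by
      apply Nat.ModEq.add_left
      rw [hd]
      exact Nat.mod_modEq _ _
    have h5 : r + (e + (M - r % M)) ≡ e [MOD M] := by
      have h6 : r + (e + (M - r % M)) = e + M * (r / M) + M := by
        have := Nat.div_add_mod r M
        omega
      rw [h6]
      simp [Nat.ModEq]
    exact (h4.trans h5).symm
  exact Nat.ModEq.add_right_cancel' d h2

/-- Dichotomy: either `f(N)+1, f(N)+3, f(N)+7` are all prime or `f(N)` is at most about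
`15/19` of `N`; in particular for `N ≥ 2100` they are all prime as soon as `f(N) ≥ 4N/5`. -/
theorem result :
    ∀ N : ℕ, 6 ≤ N → ∀ a : ℕ → ℤ, a 1 = (N : ℤ) - 6 →
      (∀ n : ℕ, 2 ≤ n → a n = a (n - 1) - ((Int.gcd (a (n - 1)) ((n + b n : ℕ) : ℤ) : ℕ) : ℤ)) →
      ∀ f : ℕ, IsLeast {n : ℕ | 1 ≤ n ∧ a n = 0} f →
        ((Nat.Prime (f + 1) ∧ Nat.Prime (f + 3) ∧ Nat.Prime (f + 7)) ∨
          19 * f + 75 ≤ 15 * N + 12 * Nat.sqrt (f + 7)) ∧
        (2100 ≤ N → 4 * N ≤ 5 * f →
          Nat.Prime (f + 1) ∧ Nat.Prime (f + 3) ∧ Nat.Prime (f + 7)) := by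
  intro N hN a ha1 ha f hf
  obtain ⟨⟨hf1, haf⟩, hmin⟩ := hf
  have hmin' : ∀ k, 1 ≤ k → k < f → a k ≠ 0 := by
    intro k hk1 hk2 hk3
    have := hmin ⟨hk1, hk3⟩
    omega
  have hnn : ∀ k, 1 ≤ k → k ≤ f → 0 ≤ a k := by
    intro k hk
    induction k, hk using Nat.le_induction with
    | base => intro _; rw [ha1]; omega
    | succ k hk ih =>
      intro hkf
      have h1 := ih (by omega)
      have hpos : 0 < a k := lt_of_le_of_ne h1 (Ne.symm (hmin' k hk (by omega)))
      rw [ha (k + 1) (by omega), Nat.add_sub_cancel]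
      have := Int.le_of_dvd hpos (Int.gcd_dvd_left (a := a k) (b := ((k + 1 + b (k + 1) : ℕ) : ℤ)))
      linarith
  set V : ℕ → ℤ := fun n => ((n + b n : ℕ) : ℤ) with hVdef
  have hseg : Seg (fun k => (a k).natAbs) V 1 f := by
    refine ⟨hf1, ?_, ?_⟩
    · intro n hn1 hn2
      have h1 := ha (n + 1) (by omega)
      rw [Nat.add_sub_cancel] at h1
      have h2 : (((a n).natAbs : ℕ) : ℤ) = a n := Int.natAbs_of_nonneg (hnn n hn1 (by omega))
      have h3 : (((a (n + 1)).natAbs : ℕ) : ℤ) = a (n + 1) :=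
        Int.natAbs_of_nonneg (hnn (n + 1) (by omega) (by omega))
      have : ((((a (n + 1)).natAbs + Int.gcd (((a n).natAbs : ℕ) : ℤ) (V (n + 1)) : ℕ)) : ℤ)
          = (((a n).natAbs : ℕ) : ℤ) := by
        rw [Nat.cast_add, h2, h3, h1]
        ring
      exact_mod_cast this
    · intro n hn1 hn2
      exact Int.natAbs_pos.mpr (hmin' n hn1 hn2)
  obtain ⟨l, hsl, hle, htr, hineq⟩ := hseg.main 15 4 (fun p => if p ≤ 3 then 1 else 3)
    (by intro p hp; split_ifs <;> norm_num)
    (by
      intro p hp n hn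
      split_ifs with h
      · rw [one_mul]
        have h2 := hp.two_le
        have h3 : p = 2 ∨ p = 3 := by omega
        rcases h3 with rfl | rfl
        · simp only [hVdef]
          have e1 := b_even n
          have e2 := b_even (n + 2)
          omega
        · simp only [hVdef]
          rw [b_add_three]
          omega
      · have e1 : V (n + 3 * p) = V n + (p : ℤ) * 3 := by
          simp only [hVdef]; rw [b_add]; push_cast; ring
        rw [e1]
        exact (Int.dvd_add_left (Dvd.intro _ rfl)).mp)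
    (fun _ => 0)
    (by
      intro k hk1 hk2 hg
      set g := Int.gcd (((a k).natAbs : ℕ) : ℤ) (V (k + 1)) with hgdef
      have hpp : (Nat.minFac g).Prime := Nat.minFac_prime (by omega)
      have hple : Nat.minFac g ≤ g := Nat.minFac_le (by omega)
      have h2 := hpp.two_le
      split_ifs with h
      · omega
      · have h4 : Nat.minFac g ≠ 4 := by
          intro h4; rw [h4] at hpp; revert hpp; decide
        omega)
    f hf1 le_rfl
  have hrun := hseg.run hsl le_rfl htr
  have hx1 : (((a 1).natAbs : ℕ) : ℤ) = N - 6 := by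
    rw [ha1]; exact Int.natAbs_of_nonneg (by omega)
  have hxf : (a f).natAbs = 0 := by rw [haf]; rfl
  have hineq2 : 19 * (f - 1) ≤ 15 * (N - 6) + 4 * (f - l) := by
    simp only [Finset.sum_const_zero] at hineq
    omega
  -- detection
  have detect : ∀ (p : ℕ), p.Prime → (p ∣ f + 1 ∨ p ∣ f + 3 ∨ p ∣ f + 7) → f - l < 3 * p := by
    intro p hp hdvd
    by_contra hcon
    push Not at hcon
    have hp2 := hp.two_le
    -- it is enough to find k in the run with p ∣ f - k and p ∣ V (k+1)
    have suff : ∀ k, l ≤ k → k < f → p ∣ f - k → ¬ (p ∣ (k + 1) + b (k + 1)) := by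
      intro k hk1 hk2 hk3 hk4
      have h1 := htr k hk1 hk2
      have h2 := hrun k hk1 hk2.le
      have h8 : (p : ℤ) ∣ (Int.gcd (((a k).natAbs : ℕ) : ℤ) (V (k + 1)) : ℤ) := by
        apply Int.dvd_coe_gcd
        · have : (a k).natAbs = f - k := by omega
          rw [this]
          exact Int.natCast_dvd_natCast.mpr hk3
        · simp only [hVdef]
          exact Int.natCast_dvd_natCast.mpr hk4
      rw [h1] at h8
      have h9 : p ∣ 1 := by exact_mod_cast h8
      exact hp.one_lt.ne' (Nat.dvd_one.mp h9)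
    by_cases h23 : p = 2
    · subst h23
      have h1 := suff (f - 2) (by omega) (by omega) (by omega)
      have h2 := b_even (f - 2 + 1)
      omega
    by_cases h33 : p = 3
    · subst h33
      have h1 := suff (f - 3) (by omega) (by omega) (by omega)
      have h2 : b (f - 3 + 1) = b (f + 1) := by apply b_congr; omega
      rw [h2] at h1
      have h3 : b (f + 1) = if (f + 1) % 3 = 1 then 2 else if (f + 1) % 3 = 2 then 6 else 0 := rfl
      split_ifs at h3 with h4 h5 <;> rw [h3] at h1 <;> omega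
    have hcop : Nat.Coprime 3 p := by
      rw [Nat.coprime_primes Nat.prime_three hp]; omega
    -- index i with b i = the right shift
    obtain ⟨i, c, hic, hi1, hdvd'⟩ : ∃ i c : ℕ, b i = c ∧ i < 3 ∧ p ∣ f + 1 + c := by
      rcases hdvd with h | h | h
      · exact ⟨0, 0, rfl, by norm_num, h⟩
      · exact ⟨1, 2, rfl, by norm_num, h⟩
      · exact ⟨2, 6, rfl, by norm_num, h⟩
    obtain ⟨r, hr1, hr2⟩ := Nat.chineseRemainder hcop i (f + 1)
    obtain ⟨k, hk1, hk2, hk3⟩ := window (3 * p) (by omega) r f (by omega)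
    have h3 : k + 1 ≡ f + 1 [MOD p] := (hk3.of_dvd (Dvd.intro_left _ rfl)).trans hr2
    have h4 : k ≡ f [MOD p] := Nat.ModEq.add_right_cancel' 1 h3
    have h5 : p ∣ f - k := (Nat.modEq_iff_dvd' (by omega)).mp h4
    have h6 : k + 1 ≡ i [MOD 3] := (hk3.of_dvd (Dvd.intro _ rfl)).trans hr1
    have h7 : b (k + 1) = c := by rw [← hic]; exact b_congr h6
    apply suff k (by omega) hk2 h5
    rw [h7]
    have h8 : k + 1 + c ≡ f + 1 + c [MOD p] := Nat.ModEq.add_right c h3
    exact (Nat.ModEq.dvd_iff h8 dvd_rfl).mpr hdvd'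
  have fin : ∀ p : ℕ, p.Prime → (p ∣ f + 1 ∨ p ∣ f + 3 ∨ p ∣ f + 7) → p ≤ Nat.sqrt (f + 7) →
      19 * f + 75 ≤ 15 * N + 12 * Nat.sqrt (f + 7) := by
    intro p hp h1 h2
    have h3 := detect p hp h1
    omega
  have main : (Nat.Prime (f + 1) ∧ Nat.Prime (f + 3) ∧ Nat.Prime (f + 7)) ∨
      19 * f + 75 ≤ 15 * N + 12 * Nat.sqrt (f + 7) := by
    by_cases hp1 : Nat.Prime (f + 1)
    · by_cases hp2 : Nat.Prime (f + 3)
      · by_cases hp3 : Nat.Prime (f + 7)
        · exact Or.inl ⟨hp1, hp2, hp3⟩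
        · right
          apply fin (Nat.minFac (f + 7)) (Nat.minFac_prime (by omega))
            (Or.inr (Or.inr (Nat.minFac_dvd _)))
          rw [Nat.le_sqrt']
          exact (Nat.minFac_sq_le_self (by omega) hp3).trans (by omega)
      · right
        apply fin (Nat.minFac (f + 3)) (Nat.minFac_prime (by omega))
          (Or.inr (Or.inl (Nat.minFac_dvd _)))
        rw [Nat.le_sqrt']
        exact (Nat.minFac_sq_le_self (by omega) hp2).trans (by omega)
    · right
      apply fin (Nat.minFac (f + 1)) (Nat.minFac_prime (by omega)) (Or.inl (Nat.minFac_dvd _))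
      rw [Nat.le_sqrt']
      exact (Nat.minFac_sq_le_self (by omega) hp1).trans (by omega)
  refine ⟨main, ?_⟩
  intro hN2 hfN
  rcases main with h | h
  · exact h
  · exfalso
    have hs := Nat.sqrt_le' (f + 7)
    set q := Nat.sqrt (f + 7) with hq
    -- 19 f + 75 ≤ 15 N + 12 q, 4 N ≤ 5 f, q^2 ≤ f + 7
    have h1 : 4 * (19 * f + 75) ≤ 75 * f + 48 * q := by omega
    have h2 : f + 300 ≤ 48 * q := by omega
    -- f ≥ 1680
    have h3 : 1680 ≤ f := by omega
    have h4 : 42 ≤ q ∨ q < 42 := by omega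
    nlinarith [h2, hs, h3]

end Pool.Agent.Results.MP_3f8e47_nt.LongLife
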